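import Pool.Agent.Helper7.BM.Goals2

/-!
# Project BM (MP_57df85_nt), packet SZD: size of the determinant
-/

set_option autoImplicit false

namespace Pool.Agent.Helper89.BM

open Pool.Agent.Helper7.BM

theorem sum_fst (K1 K2 : ℕ) : ∑ k : Fin K1 × Fin K2, (k.1 : ℕ) = K2 * (K1 * (K1 - 1) / 2) := by
  rw [Fintype.sum_prod_type]
  simp only [Finset.sum_const, Finset.card_univ, Fintype.card_fin, smul_eq_mul]
  rw [← Finset.mul_sum, Fin.sum_univ_eq_sum_range (fun i => i), Finset.sum_range_id]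

theorem sum_snd (K1 K2 : ℕ) : ∑ k : Fin K1 × Fin K2, (k.2 : ℕ) = K1 * (K2 * (K2 - 1) / 2) := by
  rw [Fintype.sum_prod_type]
  simp only
  rw [Finset.sum_const, Finset.card_univ, Fintype.card_fin, smul_eq_mul,
    Fin.sum_univ_eq_sum_range (fun i => i), Finset.sum_range_id]

/-- Packet SZD. -/
theorem szd : StmtSZD := by
  classical
  intro K1 K2 X1 X2 w hw
  have hX1 : (0 : ℤ) ≤ X1 := Int.natCast_nonneg _
  have hX2 : (0 : ℤ) ≤ X2 := Int.natCast_nonneg _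
  rw [Matrix.det_apply]
  refine (Finset.abs_sum_le_sum_abs _ _).trans ?_
  have hterm : ∀ σ : Equiv.Perm (Fin K1 × Fin K2),
      |Equiv.Perm.sign σ • ∏ i, (Matrix.of fun (k ij : Fin K1 × Fin K2) =>
        (w k).1 ^ (ij.1 : ℕ) * (w k).2 ^ (ij.2 : ℕ)) (σ i) i| ≤
      (X1 : ℤ) ^ (K2 * (K1 * (K1 - 1) / 2)) * (X2 : ℤ) ^ (K1 * (K2 * (K2 - 1) / 2)) := by
    intro σ
    have h1 : |Equiv.Perm.sign σ • ∏ i, (Matrix.of fun (k ij : Fin K1 × Fin K2) =>
        (w k).1 ^ (ij.1 : ℕ) * (w k).2 ^ (ij.2 : ℕ)) (σ i) i| =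
        ∏ i : Fin K1 × Fin K2, |(w (σ i)).1 ^ (i.1 : ℕ) * (w (σ i)).2 ^ (i.2 : ℕ)| := by
      rw [Units.smul_def, zsmul_eq_mul, abs_mul, Finset.abs_prod]
      rcases Int.units_eq_one_or (Equiv.Perm.sign σ) with h | h <;> simp [h]
    rw [h1, ← sum_fst K1 K2, ← sum_snd K1 K2, ← Finset.prod_pow_eq_pow_sum,
      ← Finset.prod_pow_eq_pow_sum, ← Finset.prod_mul_distrib]
    apply Finset.prod_le_prod
    · intro i _
      exact abs_nonneg _
    · intro i _
      rw [abs_mul, abs_pow, abs_pow]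
      exact mul_le_mul (pow_le_pow_left₀ (abs_nonneg _) (hw _).1 _)
        (pow_le_pow_left₀ (abs_nonneg _) (hw _).2 _) (pow_nonneg (abs_nonneg _) _)
        (pow_nonneg hX1 _)
  refine (Finset.sum_le_sum (fun σ _ => hterm σ)).trans ?_
  rw [Finset.sum_const, Finset.card_univ, Fintype.card_perm, Fintype.card_prod, Fintype.card_fin,
    Fintype.card_fin, nsmul_eq_mul, mul_assoc]

end Pool.Agent.Helper89.BM
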